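import Pool.Agent.H38.SE.TarB

/-! # BE: joins of compatible conditions -/

set_option linter.unusedVariables false

open Ordinal Order Set
open scoped ZFSet

namespace SE

open SF

theorem H88.cmp_symm {q p : V} (h : Cmp q p) : Cmp p q := fun i hp hq => (h i hq hp).symm

theorem H88.un_comm (a b : V) : a ∪ b = b ∪ a := by
  ext z
  simp only [ZFSet.mem_union]
  exact or_comm

theorem H88.un_empty (a : V) : a ∪ ∅ = a := by
  ext z
  simp [ZFSet.mem_union]

theorem H88.un_eq_left {a b : V} (h : b ⊆ a) : a ∪ b = a := by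
  ext z
  simp only [ZFSet.mem_union]
  exact ⟨fun hz => hz.elim id (fun h2 => h h2), Or.inl⟩

theorem H88.un_eq_right {a b : V} (h : a ⊆ b) : a ∪ b = b := by
  rw [H88.un_comm]
  exact H88.un_eq_left h

theorem H88.jn_comm (q p : V) : jn q p = jn p q := by
  unfold jn
  rw [H88.un_comm (dm q) (dm p)]
  refine resS_congr fun i hi => ?_
  rw [H88.un_comm (fst (app q i)), H88.un_comm (snd (app q i))]

theorem H88.dm_mono {a b : V} (h : a ⊆ b) : dm a ⊆ dm b := by
  intro x hx
  obtain ⟨y, hy⟩ := mem_dm.1 hx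
  exact mem_dm.2 ⟨y, h hy⟩

theorem H88.not_mem_dm_empty (n : V) : n ∉ dm (∅ : V) := by
  intro h
  obtain ⟨y, hy⟩ := mem_dm.1 h
  exact ZFSet.notMem_empty _ hy

theorem H88.app_of_sub {a b n : V} (ha : Svl a) (hb : Svl b) (h : a ⊆ b) (hn : n ∈ dm a) :
    app a n = app b n := by
  obtain ⟨y, hy⟩ := mem_dm.1 hn
  rw [app_eq ha hy, app_eq hb (h hy)]

/-- the coordinates of the join -/
theorem H88.app_jn {q p i : V} (hi : i ∈ dm q ∪ dm p) : app (jn q p) i =
    ZFSet.pair (fst (app q i) ∪ fst (app p i)) (snd (app q i) ∪ snd (app p i)) :=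
  app_resS hi

theorem H88.dm_jn (q p : V) : dm (jn q p) = dm q ∪ dm p := dm_resS _ _

/-- the join is stronger than the first condition -/
theorem H88.le_jn (hBC : T_BC) {q p : V} (h : Cmp q p) : Le (jn q p) q := by
  obtain ⟨-, -, -, -, -, -, -, hemp, hf0, hs0, -⟩ := hBC
  intro i hi
  have hi2 : i ∈ dm q ∪ dm p := ZFSet.mem_union.2 (Or.inl hi)
  refine ⟨by rw [H88.dm_jn]; exact hi2, ?_⟩
  have e := H88.app_jn hi2
  refine ⟨?_, ?_, ?_⟩
  · rw [e, fst_pair]
    exact fun z hz => ZFSet.mem_union.2 (Or.inl hz)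
  · rw [e, snd_pair]
    exact fun z hz => ZFSet.mem_union.2 (Or.inl hz)
  · intro n hn hn2 l hl
    rw [e, fst_pair] at hn ⊢
    by_cases hp : i ∈ dm p
    · rcases h i hi hp with ⟨h1, h2⟩ | ⟨h1, h2⟩
      · rw [H88.un_eq_left h1] at hn
        exact absurd hn hn2
      · rw [H88.un_eq_right h1] at hn ⊢
        exact h2 n hn hn2 l hl
    · rw [hemp p i hp, hf0, H88.un_empty] at hn
      exact absurd hn hn2

theorem pf_BE (hAF : T_AF) (hBC : T_BC) (hBD : T_BD) (hBG : T_BG) : T_BE := by
  have hBC' := hBC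
  obtain ⟨hsq, hSq0, -, -, hprop, -, hsub, -, hunion⟩ := hAF
  obtain ⟨-, hres, -, hPos, -, -, -, hemp, hf0, hs0, -⟩ := hBC
  obtain ⟨-, -, -, -, -, hrst, -, -⟩ := hBD
  have hsq0 : (∅ : V) ∈ sq := (hsq _).2 ⟨0, hSq0⟩
  have hFs0 : ∀ L : V, (∅ : V) ∈ Fs L := by
    intro L
    unfold Fs
    rw [ZFSet.mem_sep, ZFSet.mem_powerset]
    refine ⟨fun z hz => absurd hz (ZFSet.notMem_empty _), ?_⟩
    have : ((∅ : V) : Set V) = ∅ := by
      ext z
      simp
    rw [this]
    exact Set.finite_empty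
  have hFsU : ∀ L a b : V, a ∈ Fs L → b ∈ Fs L → a ∪ b ∈ Fs L := by
    intro L a b ha hb
    unfold Fs at ha hb ⊢
    rw [ZFSet.mem_sep, ZFSet.mem_powerset] at ha hb ⊢
    refine ⟨fun z hz => ?_, ?_⟩
    · rcases ZFSet.mem_union.1 hz with h | h
      · exact ha.1 h
      · exact hb.1 h
    · have : ((a ∪ b : V) : Set V) = (a : Set V) ∪ (b : Set V) := by
        ext z
        simp
      rw [this]
      exact ha.2.union hb.2
  intro L ρ p q hρ hp hq
  have hp1 := (hPos L ρ p).1 hp
  have hq1 := (hPos L ρ q).1 hq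
  -- the components are fine even outside of the domain
  have hcs : ∀ r, r ∈ Pos L ρ → ∀ i, fst (app r i) ∈ sq ∧ snd (app r i) ∈ Fs L := by
    intro r hr i
    by_cases hi : i ∈ dm r
    · have h1 := ((hPos L ρ r).1 hr).2.2 i hi
      exact ⟨h1.s, h1.f⟩
    · rw [hemp r i hi, hf0, hs0]
      exact ⟨hsq0, hFs0 L⟩
  refine ⟨?_, ?_, ?_⟩
  · intro hc
    have hle1 : Le (jn q p) q := H88.le_jn hBC' hc
    have hle2 : Le (jn q p) p := by
      rw [H88.jn_comm]
      exact H88.le_jn hBC' (H88.cmp_symm hc)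
    have hdm : dm (jn q p) = dm q ∪ dm p := H88.dm_jn q p
    have hFF : FF (jn q p) := by
      refine hres _ _ ?_
      have : ((dm q ∪ dm p : V) : Set V) = (dm q : Set V) ∪ (dm p : Set V) := by
        ext z
        simp
      rw [this]
      obtain ⟨h1, -⟩ := hBC'
      exact ((h1 q hq1.1).2.1).union ((h1 p hp1.1).2.1)
    refine ⟨?_, hle1, hle2, hdm⟩
    -- comparability
    have hcomp : ∀ i, fst (app q i) ⊆ fst (app p i) ∨ fst (app p i) ⊆ fst (app q i) := by
      intro i
      by_cases hiq : i ∈ dm q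
      · by_cases hip : i ∈ dm p
        · rcases hc i hiq hip with h | h
          · exact Or.inr h.1
          · exact Or.inl h.1
        · rw [hemp p i hip, hf0]
          exact Or.inr fun z hz => absurd hz (ZFSet.notMem_empty _)
      · rw [hemp q i hiq, hf0]
        exact Or.inl fun z hz => absurd hz (ZFSet.notMem_empty _)
    refine hBG L ρ (jn q p) hρ hFF ?_ ?_ ?_
    · rw [hdm]
      intro i hi
      rcases ZFSet.mem_union.1 hi with h | h
      · exact hq1.2.1 h
      · exact hp1.2.1 h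
    · intro i hi
      rw [hdm] at hi
      rw [H88.app_jn hi, fst_pair, snd_pair]
      refine ⟨rfl, ?_, hFsU L _ _ (hcs q hq i).2 (hcs p hp i).2⟩
      rcases hcomp i with h | h
      · rw [H88.un_eq_right h]
        exact (hcs p hp i).1
      · rw [H88.un_eq_left h]
        exact (hcs q hq i).1
    · intro i hi n hn
      rw [hdm] at hi
      have key : ∀ r, r ∈ Pos L ρ → Le (jn q p) r →
          fst (app q i) ∪ fst (app p i) = fst (app r i) →
          ∃ b ∈ sq, ∃ j ∈ hf, ∃ q', dm b = n ∧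
            app (fst (app (jn q p) i)) n = ZFSet.pair b j ∧ ZFSet.pair q' b ∈ lY i ∧
            Le (rst (lS i) (jn q p)) q' := by
        intro r hr hler he
        rw [H88.app_jn hi, fst_pair, he] at hn ⊢
        have hir : i ∈ dm r := by
          by_contra hir
          rw [hemp r i hir, hf0] at hn
          exact H88.not_mem_dm_empty n hn
        have hr1 := (hPos L ρ r).1 hr
        obtain ⟨b, hb, j, hj, h1, h2, h3⟩ := (hr1.2.2 i hir).v n hn
        exact ⟨b, hb, j, hj, rst (lS i) r, h1, h2, h3, hrst _ _ _ hr1.1 hFF hler⟩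
      rcases hcomp i with h | h
      · exact key p hp hle2 (H88.un_eq_right h)
      · exact key q hq hle1 (H88.un_eq_left h)
  · intro r hr hrq hrp
    have hr1 := (hPos L ρ r).1 hr
    have hsvl : ∀ b : V, b ∈ sq → Svl b := by
      intro b hb
      obtain ⟨n, hn⟩ := (hsq b).1 hb
      exact (hprop n b hn).2.1
    have hcmp2 : ∀ i, i ∈ dm q → i ∈ dm p →
        fst (app q i) ⊆ fst (app p i) ∨ fst (app p i) ⊆ fst (app q i) := by
      intro i hiq hip
      obtain ⟨n, hn⟩ := (hsq _).1 (hcs q hq i).1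
      obtain ⟨m, hm⟩ := (hsq _).1 (hcs p hp i).1
      obtain ⟨k, hk⟩ := (hsq _).1 (hcs r hr i).1
      have h1 := (hsub n _ k _ hn hk).1 (hrq i hiq).2.s
      have h2 := (hsub m _ k _ hm hk).1 (hrp i hip).2.s
      rcases le_total n m with h | h
      · refine Or.inl ((hsub n _ m _ hn hm).2 ⟨h, fun l hl => ?_⟩)
        rw [h1.2 l hl, h2.2 l (lt_of_lt_of_le hl h)]
      · refine Or.inr ((hsub m _ n _ hm hn).2 ⟨h, fun l hl => ?_⟩)
        rw [h1.2 l (lt_of_lt_of_le hl h), h2.2 l hl]
    have hav : ∀ a c : V, a ∈ Pos L ρ → c ∈ Pos L ρ → Le r a → Le r c → ∀ i, i ∈ dm a → i ∈ dm c →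
        ∀ n ∈ dm (fst (app a i)), n ∉ dm (fst (app c i)) →
          ∀ l ∈ snd (app c i), app (fst (app a i)) n ≠ app l n := by
      intro a c ha hc hra hrc i hia hic n hn hn2 l hl
      have hs := (hra i hia).2.s
      have h1 : app (fst (app a i)) n = app (fst (app r i)) n :=
        H88.app_of_sub (hsvl _ (hcs a ha i).1) (hsvl _ (hcs r hr i).1) hs hn
      rw [h1]
      exact (hrc i hic).2.d n (H88.dm_mono hs hn) hn2 l hl
    refine ⟨?_, ?_⟩
    · intro i hiq hip
      rcases hcmp2 i hiq hip with h | h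
      · exact Or.inr ⟨h, hav p q hp hq hrp hrq i hip hiq⟩
      · exact Or.inl ⟨h, hav q p hq hp hrq hrp i hiq hip⟩
    · intro i hi
      rw [H88.dm_jn] at hi
      have hir : i ∈ dm r := by
        rcases ZFSet.mem_union.1 hi with h | h
        · exact (hrq i h).1
        · exact (hrp i h).1
      have hle3 : ∀ a : V, Le r a → fst (app a i) ⊆ fst (app r i) ∧ snd (app a i) ⊆ snd (app r i) ∧
          ∀ n ∈ dm (fst (app r i)), n ∉ dm (fst (app a i)) →
            ∀ l ∈ snd (app a i), app (fst (app r i)) n ≠ app l n := by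
        intro a hra
        by_cases hia : i ∈ dm a
        · exact ⟨(hra i hia).2.s, (hra i hia).2.f, (hra i hia).2.d⟩
        · rw [hemp a i hia, hf0, hs0]
          exact ⟨fun z hz => absurd hz (ZFSet.notMem_empty _),
            fun z hz => absurd hz (ZFSet.notMem_empty _),
            fun n _ _ l hl => absurd hl (ZFSet.notMem_empty _)⟩
      obtain ⟨q1, q2, q3⟩ := hle3 q hrq
      obtain ⟨p1, p2, p3⟩ := hle3 p hrp
      refine ⟨hir, ?_, ?_, ?_⟩
      · rw [H88.app_jn hi, fst_pair]
        intro z hz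
        rcases ZFSet.mem_union.1 hz with h | h
        · exact q1 h
        · exact p1 h
      · rw [H88.app_jn hi, snd_pair]
        intro z hz
        rcases ZFSet.mem_union.1 hz with h | h
        · exact q2 h
        · exact p2 h
      · intro n hn hn2 l hl
        rw [H88.app_jn hi, fst_pair] at hn2
        rw [H88.app_jn hi, snd_pair] at hl
        rcases ZFSet.mem_union.1 hl with h | h
        · exact q3 n hn (fun h2 => hn2 (H88.dm_mono
            (fun z hz => ZFSet.mem_union.2 (Or.inl hz)) h2)) l h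
        · exact p3 n hn (fun h2 => hn2 (H88.dm_mono
            (fun z hz => ZFSet.mem_union.2 (Or.inr hz)) h2)) l h
  · intro h i hiq hip
    refine Or.inl ⟨?_, ?_⟩
    · rw [h i hiq hip]
    · intro n hn hn2
      rw [h i hiq hip] at hn
      exact absurd hn hn2

end SE
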