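import Pool.Agent.H88.SE.CA2

/-! # CA: reflection of types -/

set_option linter.unusedVariables false

open Ordinal Order Set
open scoped ZFSet

namespace SE

open SF

namespace H88

theorem fs_of_isFunc (hAB : T_AB) {k : ℕ} {s : V} (hs : ZFSet.IsFunc (nS k) sq s) :
    s ∈ Fs (ZFSet.prod om sq) := by
  rw [hAB.1]
  refine ⟨fun z hz => ?_, isFunc_fin hs (fin_nS k)⟩
  obtain ⟨a, ha, b, hb, rfl⟩ := ZFSet.mem_prod.1 (hs.1 hz)
  obtain ⟨j, hj, rfl⟩ := mem_nS.1 ha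
  exact ZFSet.pair_mem_prod.2 ⟨mem_om.2 ⟨j, rfl⟩, hb⟩

/-- first choice function -/
theorem exF1 (hCH : T_CH) (hCR : T_CR) {M : V → Prop} (k : ZFCm M) {L ρ q0 B U2 : V}
    (hL : M L) (hρ : M ρ) (hq : M q0) (hB : M B) (hU2 : M U2) :
    ∃ f1, M f1 ∧ ∀ x ∈ U2, Ctbl M (app f1 x) ∧
      (Real M L ρ q0 B (fst x) (snd x) (app f1 x) → Good M L ρ q0 B (fst x) (snd x)) := by
  have k1 := k.toZFm
  have hpv : In M (cons L (cons ρ (cons q0 (cons B (fun _ => ∅))))) :=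
    (((In.cons (fun _ => k1.mempty) hB).cons hq).cons hρ).cons hL
  obtain ⟨f, hf, -, -, h⟩ := hCH R1 (dfb_R1 hCR) M k _ hpv U2 hU2 (by
    intro x hx
    by_cases hg : Good M L ρ q0 B (fst x) (snd x)
    · exact ⟨∅, k1.mempty, Or.inl rfl, fun _ => hg⟩
    · unfold Good at hg
      push Not at hg
      obtain ⟨Z, hZ, hZc, hZr⟩ := hg
      exact ⟨Z, hZ, hZc, fun h => absurd h hZr⟩)
  exact ⟨f, hf, fun x hx => h x hx⟩

/-- second choice function -/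
theorem exF2 (hAB : T_AB) (hAF : T_AF) (hCH : T_CH) (hCR : T_CR) {D : Cx} (hD : D.Ok)
    {ρ q0 B U : V} (hL : D.N D.L) (hρ : D.N ρ) (hq : D.N q0) (hB : D.N B) (hU : D.N U)
    (hUk : ∀ T ∈ U, ∃ k : ℕ, fst (snd T) = nS k) :
    ∃ f2, D.N f2 ∧ ∀ T ∈ U, Ctbl D.N (app f2 T) ∧
      ∀ d, D.N d → (ZFSet.IsFunc (fst (snd T)) D.L d →
        (∀ i ∈ fst (snd T), ∀ j ∈ fst (snd T), (app d i = app d j → i = j)) →
        (∀ j ∈ fst (snd T), app d j ∉ app f2 T) →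
        ∃ t ∈ DT D.N D.L ρ q0 B T, ∀ j ∈ fst (snd T), app t j ⊆ app d j) := by
  have k := hD.zfc.toZFCm
  have k1 := k.toZFm
  have hpv : In D.N (cons D.L (cons ρ (cons q0 (cons B (fun _ => ∅))))) :=
    (((In.cons (fun _ => k1.mempty) hB).cons hq).cons hρ).cons hL
  obtain ⟨f, hf, -, -, h⟩ := hCH R2 (dfb_R2 hAB hAF hCR) D.N k _ hpv U hU (by
    intro T hT
    obtain ⟨n, hn⟩ := hUk T hT
    have hTM : D.N T := k1.trans _ hU T hT
    have hE : D.N (DT D.N D.L ρ q0 B T) := by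
      have h := (tm_DT hAB hAF hCR).1 D.N k1
        (cons D.L (cons ρ (cons q0 (cons B (cons T (fun _ => ∅))))))
        (((((In.cons (fun _ => k1.mempty) hTM).cons hB).cons hq).cons hρ).cons hL)
      exact h
    obtain ⟨Z, hZ, hZc, hZd⟩ := hD.lZ n (DT D.N D.L ρ q0 B T) hE (by
      intro s hs
      unfold DT at hs
      rw [ZFSet.mem_sep, hn] at hs
      exact hs.2.1) (by
      intro s hs
      by_cases hall : ∀ s' ∈ Fs (ZFSet.prod om sq), (ZFSet.IsFunc (fst (snd T)) sq s' →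
          (∀ j ∈ fst (snd T), app s j ⊆ app s' j) → Good D.N D.L ρ q0 B T s')
      · refine ⟨s, ?_, fun j hj => fun z hz => hz⟩
        unfold DT
        rw [ZFSet.mem_sep]
        refine ⟨fs_of_isFunc hAB hs, ?_, Or.inr hall⟩
        rw [hn]
        exact hs
      · push Not at hall
        obtain ⟨s', hs'1, hs'2, hs'3, hs'4⟩ := hall
        refine ⟨s', ?_, fun j hj => hs'3 _ (by rw [hn]; exact mem_nS.2 ⟨j, hj, rfl⟩)⟩
        unfold DT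
        rw [ZFSet.mem_sep]
        exact ⟨hs'1, hs'2, Or.inl hs'4⟩)
    refine ⟨Z, hZ, hZc, ?_⟩
    intro d hd hd1 hd2 hd3
    replace hd1 : ZFSet.IsFunc (fst (snd T)) D.L d := hd1
    replace hd2 : ∀ i ∈ fst (snd T), ∀ j ∈ fst (snd T), (app d i = app d j → i = j) := hd2
    replace hd3 : ∀ j ∈ fst (snd T), app d j ∉ Z := hd3
    rw [hn] at hd1 hd2 hd3
    obtain ⟨t, ht, ht2⟩ := hZd d hd1 (by
      intro i hi j hj hij h
      exact hij (nS_inj.1 (hd2 _ (mem_nS.2 ⟨i, hi, rfl⟩) _ (mem_nS.2 ⟨j, hj, rfl⟩) h)))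
      (fun j hj => hd3 _ (mem_nS.2 ⟨j, hj, rfl⟩))
    refine ⟨t, ht, ?_⟩
    show ∀ j ∈ fst (snd T), app t j ⊆ app d j
    rw [hn]
    intro j hj
    obtain ⟨i, hi, rfl⟩ := mem_nS.1 hj
    exact ht2 i hi)
  exact ⟨f, hf, fun x hx => h x hx⟩

end H88

open H88 in
theorem pf_CA (hAB : T_AB) (hAC : T_AC) (hAF : T_AF) (hBC : T_BC) (hBJ : T_BJ) (hCH : T_CH)
    (hCG : T_CG) (hCR : T_CR) : T_CA := by
  intro D hD ρ q0 B hρ hcl hq0 hB hyp
  have k := hD.zfc.toZFCm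
  have k1 := k.toZFm
  obtain ⟨hL, -, -, hP, -⟩ := hBJ D hD
  have hMP : D.N (D.P ρ) := (hP ρ hρ).1
  have hMq : D.N q0 := k1.trans _ hMP q0 hq0
  have mU : D.N (UU D.L ρ) := by
    have h := (tm_UU hAB hAF).1 D.N k1 (cons D.L (cons ρ (fun _ => ∅)))
      (((In.cons (fun _ => k1.mempty) hρ).cons hL))
    exact h
  have mU2 : D.N (ZFSet.prod (UU D.L ρ) (Fs (ZFSet.prod om sq))) := by
    have h := (Tm.prod (tm_UU hAB hAF) (tm_fps hAB hAF)).1 D.N k1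
      (cons D.L (cons ρ (fun _ => ∅))) (((In.cons (fun _ => k1.mempty) hρ).cons hL))
    exact h
  obtain ⟨f1, mf1, hf1⟩ := exF1 hCH hCR k hL hρ hMq hB mU2
  obtain ⟨f2, mf2, hf2⟩ := exF2 hAB hAF hCH hCR hD hL hρ hMq hB mU
    (fun T hT => (of_mem_UU hAB hT).2.2.2.2.1)
  obtain ⟨Y, hYc, hYs, hYcl⟩ := H88.closure hAB hAC hAF hCG k hL hρ mf1 mf2
    (fun x hx => (hf1 x hx).1) (fun x hx => (hf2 x hx).1)
  -- an element of the Luzin set outside of `Y`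
  obtain ⟨l, hl, hlY⟩ : ∃ l ∈ D.L, l ∉ Y := by
    by_contra hcon
    push Not at hcon
    exact hD.lU ((hAC D.N k1).2.1 _ _ hL hYc (fun x hx => hcon x hx))
  obtain ⟨p, hp, hpq, m, hm, hmB⟩ := hyp l hl
  have hMp : D.N p := k1.trans _ hMP p hp
  have hp1 := (hBC.2.2.2.1 D.L ρ p).1 hp
  obtain ⟨hpFF, hpdm, hpco⟩ := hp1
  have hAfin : ((dm p ∩ Y : V) : Set V).Finite :=
    (fin_dm hpFF.1).subset fun x hx => (ZFSet.mem_inter.1 hx).1
  -- the new reals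
  obtain ⟨E, hE⟩ : ∃ E : V, ∀ x, x ∈ E ↔ x ∈ D.L ∧ x ∉ Y ∧
      (x = l ∨ ∃ i ∈ dm p ∩ Y, x ∈ snd (app p i)) :=
    ⟨D.L.sep fun x => x ∉ Y ∧ (x = l ∨ ∃ i ∈ dm p ∩ Y, x ∈ snd (app p i)),
      fun x => ZFSet.mem_sep⟩
  have hEfin : (E : Set V).Finite := by
    have h1 : (E : Set V) ⊆ {l} ∪ ⋃ i ∈ ((dm p ∩ Y : V) : Set V), (snd (app p i) : Set V) := by
      intro x hx
      rcases ((hE x).1 hx).2.2 with rfl | ⟨i, hi, h⟩
      · exact Or.inl rfl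
      · refine Or.inr ?_
        rw [Set.mem_iUnion₂]
        exact ⟨i, hi, h⟩
    refine Set.Finite.subset ((Set.finite_singleton l).union
      (Set.Finite.biUnion hAfin fun i hi => ?_)) h1
    exact ((hAB.1 _ _).1 (hpco i (ZFSet.mem_inter.1 hi).1).f).2
  obtain ⟨n, d, hd1, hd2, hd3⟩ := enum hEfin
  obtain ⟨j0, hj0, hj0l⟩ := hd3 l ((hE l).2 ⟨hl, hlY, Or.inl rfl⟩)
  have hdE : ∀ j ∈ nS n, app d j ∈ E := fun j hj => app_mem hd1 hj
  have hdL : ZFSet.IsFunc (nS n) D.L d := by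
    refine ⟨fun z hz => ?_, hd1.2⟩
    obtain ⟨a, ha, b, hb, rfl⟩ := ZFSet.mem_prod.1 (hd1.1 hz)
    exact ZFSet.pair_mem_prod.2 ⟨ha, ((hE b).1 hb).1⟩
  have hdY : ∀ j ∈ nS n, app d j ∉ Y := fun j hj => ((hE _).1 (hdE j hj)).2.1
  have hMd : D.N d := by
    have h1 : D.N (ZFSet.prod (nS n) D.L) := by
      have h := (Tm.prod (f := fun _ _ => nS n) (g := fun _ v => v 0) (Tm.nS n)
        (Tm.var 0)).1 D.N k1 (cons D.L (fun _ => ∅)) (In.cons (fun _ => k1.mempty) hL)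
      exact h
    exact (hAB.2.2 D.N k1 _ d h1 hdL.1 (isFunc_fin hdL (fin_nS n))).1
  -- the type
  obtain ⟨τ, hτ⟩ : ∃ τ : V, τ = resS (dm p ∩ Y) (fun i => ZFSet.pair (fst (app p i))
      (ZFSet.pair (snd (app p i) ∩ Y) ((nS n : V).sep fun j => app d j ∈ snd (app p i)))) :=
    ⟨_, rfl⟩
  have hdmτ : dm τ = dm p ∩ Y := by
    rw [hτ]
    exact dm_resS _ _
  have hsvτ : Svl τ := by
    rw [hτ]
    exact svl_resS _ _
  have happ : ∀ i ∈ dm τ, app τ i = ZFSet.pair (fst (app p i))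
      (ZFSet.pair (snd (app p i) ∩ Y) ((nS n : V).sep fun j => app d j ∈ snd (app p i))) := by
    intro i hi
    rw [hdmτ] at hi
    rw [hτ, app_resS hi]
  have hfinτ : (τ : Set V).Finite := by
    rw [hτ]
    exact fin_resS hAfin
  have hdmτρ : dm τ ⊆ ρ := by
    rw [hdmτ]
    exact fun i hi => hpdm (ZFSet.mem_inter.1 hi).1
  obtain ⟨T, hT⟩ : ∃ T : V, T = ZFSet.pair τ (ZFSet.pair (nS n) (ZFSet.pair j0 m)) := ⟨_, rfl⟩
  have hT1 : fst T = τ := by rw [hT, fst_pair]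
  have hT2 : fst (snd T) = nS n := by rw [hT, snd_pair, fst_pair]
  have hT3 : fst (snd (snd T)) = j0 := by rw [hT, snd_pair, snd_pair, fst_pair]
  have hT4 : snd (snd (snd T)) = m := by rw [hT, snd_pair, snd_pair, snd_pair]
  have hTU : T ∈ UU D.L ρ := by
    unfold UU
    rw [ZFSet.mem_sep, hT1]
    refine ⟨?_, hsvτ⟩
    rw [hT]
    refine ZFSet.pair_mem_prod.2 ⟨?_, ZFSet.pair_mem_prod.2 ⟨mem_om.2 ⟨n, rfl⟩,
      ZFSet.pair_mem_prod.2 ⟨?_, hm⟩⟩⟩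
    · unfold TY
      rw [hAB.1]
      refine ⟨fun z hz => ?_, hfinτ⟩
      rw [hτ] at hz
      obtain ⟨i, hi, rfl⟩ := mem_resS.1 hz
      have hi2 := ZFSet.mem_inter.1 hi
      refine ZFSet.pair_mem_prod.2 ⟨hpdm hi2.1, ZFSet.pair_mem_prod.2 ⟨(hpco i hi2.1).s,
        ZFSet.pair_mem_prod.2 ⟨?_, ?_⟩⟩⟩
      · have h1 := (hAB.1 _ _).1 (hpco i hi2.1).f
        rw [hAB.1]
        exact ⟨fun x hx => h1.1 (ZFSet.mem_inter.1 hx).1,
          h1.2.subset fun x hx => (ZFSet.mem_inter.1 hx).1⟩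
      · rw [hAB.1]
        refine ⟨fun x hx => ?_, (fin_nS n).subset fun x hx => (ZFSet.mem_sep.1 hx).1⟩
        obtain ⟨j, hj, rfl⟩ := mem_nS.1 (ZFSet.mem_sep.1 hx).1
        exact mem_om.2 ⟨j, rfl⟩
    · obtain ⟨j, hj, rfl⟩ := mem_nS.1 hj0
      exact mem_om.2 ⟨j, rfl⟩
  have hgT : gg (fst T) ⊆ Y := by
    rw [hT1]
    intro x hx
    rcases mem_gg.1 hx with h | ⟨i, hi, h⟩
    · rw [hdmτ] at h
      exact (ZFSet.mem_inter.1 h).2
    · rw [happ i hi, snd_pair, fst_pair] at h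
      exact (ZFSet.mem_inter.1 h).2
  -- good sequences
  have hgood : ∀ s, ZFSet.IsFunc (nS n) sq s → (∀ j ∈ nS n, app s j ⊆ app d j) →
      Good D.N D.L ρ q0 B T s := by
    intro s hs hsd
    have hsF := fs_of_isFunc hAB hs
    have hx : ZFSet.pair T s ∈ ZFSet.prod (UU D.L ρ) (Fs (ZFSet.prod om sq)) :=
      ZFSet.pair_mem_prod.2 ⟨hTU, hsF⟩
    have h1 := (hf1 _ hx).2
    rw [fst_pair, snd_pair] at h1
    have hcl1 := (hYcl T hTU s hsF hgT).1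
    refine h1 ⟨p, hMp, d, hMd, ?_⟩
    unfold RzT
    rw [hT1, hT2, hT3, hT4]
    refine ⟨hp, hpq, ?_, ?_, ?_, ?_, hdL, hd2, ?_, ?_⟩
    · rw [hdmτ]
      exact fun i hi => (ZFSet.mem_inter.1 hi).1
    · intro i hi hiZ
      rw [hdmτ]
      exact ZFSet.mem_inter.2 ⟨hi, hcl1 i hiZ (ZFSet.mem_union.2 (Or.inl (hpdm hi)))⟩
    · intro i hi
      rw [happ i hi, fst_pair]
    · intro i hi x
      rw [happ i hi, snd_pair, fst_pair, snd_pair]
      rw [hdmτ] at hi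
      have hi2 := ZFSet.mem_inter.1 hi
      constructor
      · intro hx
        by_cases hxY : x ∈ Y
        · exact Or.inl (ZFSet.mem_inter.2 ⟨hx, hxY⟩)
        · have hxE : x ∈ E := (hE x).2 ⟨((hAB.1 _ _).1 (hpco i hi2.1).f).1 hx, hxY,
            Or.inr ⟨i, hi, hx⟩⟩
          obtain ⟨j, hj, hjx⟩ := hd3 x hxE
          exact Or.inr ⟨j, ZFSet.mem_sep.2 ⟨hj, by rw [hjx]; exact hx⟩, hjx.symm⟩
      · rintro (hx | ⟨j, hj, rfl⟩)
        · exact (ZFSet.mem_inter.1 hx).1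
        · exact (ZFSet.mem_sep.1 hj).2
    · intro j hj
      exact ⟨hsd j hj, fun hZ => hdY j hj (hcl1 _ hZ (ZFSet.mem_union.2
        (Or.inr ((hE _).1 (hdE j hj)).1)))⟩
    · rw [hj0l]
      exact hmB
  -- the dense set
  obtain ⟨t, htD, htd⟩ := (hf2 T hTU).2 d hMd (by rw [hT2]; exact hdL) (by rw [hT2]; exact hd2)
    (by
      rw [hT2]
      intro j hj hjZ
      have h0 : resS (nS n) (fun _ => (∅ : V)) ∈ Fs (ZFSet.prod om sq) :=
        fs_of_isFunc hAB (isFunc_resS _ _ _ fun x hx => (hAF.1 _).2 ⟨0, hAF.2.1⟩)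
      exact hdY j hj ((hYcl T hTU _ h0 hgT).2 _ hjZ (ZFSet.mem_union.2
        (Or.inr ((hE _).1 (hdE j hj)).1))))
  rw [hT2] at htd
  unfold DT at htD
  rw [ZFSet.mem_sep, hT2] at htD
  obtain ⟨htF, htf, htg⟩ := htD
  have htg2 := htg.resolve_left (fun h => h (hgood t htf htd))
  refine ⟨τ, m, t, j0, n, ⟨hfinτ, hsvτ, ?_⟩, hdmτρ, hm, hj0, ?_, htf, ?_⟩
  · intro z hz
    rw [hτ] at hz
    obtain ⟨x, -, hx⟩ := mem_resS.1 hz
    exact ⟨_, _, hx.symm⟩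
  · intro i hi
    rw [happ i hi, snd_pair, snd_pair]
    exact fun x hx => (ZFSet.mem_sep.1 hx).1
  · intro s hs hst Z hZ
    obtain ⟨p', -, d', -, h⟩ := htg2 s (fs_of_isFunc hAB hs) hs hst Z
      ((hAC D.N k1).1 Z hZ) hZ
    refine ⟨p', d', ?_⟩
    unfold RzT at h
    rw [hT1, hT2, hT3, hT4] at h
    exact h

end SE
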