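import Pool.Agent.H38.SE.TarS

/-! # SC: amalgamation of states -/

set_option linter.unusedVariables false

open Ordinal Order Set
open scoped ZFSet

namespace SE

open SF

theorem pf_SC (hBA : T_BA) (hBC : T_BC) (hBD : T_BD) (hBR : T_BR) (hSA : T_SA) : T_SC := by
  intro D hD ρ G ρ1 G1 ρ2 p2 hst hex1 hρ2H hρ2c hsub hint hp2 hp2G
  have hNtr : ∀ x, x ∈ D.H → D.N x := fun x hx => hD.zfc.trans _ hD.hN x hx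
  obtain ⟨-, -, -, -, hBAu, -, hBAt⟩ := hBA
  have hst1 : D.St ρ1 G1 := hex1.st
  have hH : ρ1 ∪ ρ2 ∈ D.H := ((hBR D hD).2.2.2.1 ρ1 hst1.h ρ2 hρ2H).2.1
  have hC : Cld D.L (ρ1 ∪ ρ2) := (hBAu D.L ρ1 ρ2 hst1.c hρ2c).1
  have hp2' := (hBC.2.2.2.1 D.L ρ2 p2).1 hp2
  have hp2P : p2 ∈ D.P (ρ1 ∪ ρ2) := hBD.2.1 D.L ρ2 (ρ1 ∪ ρ2) p2 hp2
    (fun i hi => ZFSet.mem_union.2 (Or.inr (hp2'.2.1 hi)))
  have hrst : rst ρ1 p2 = rst ρ p2 := by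
    unfold rst
    ext z
    rw [ZFSet.mem_sep, ZFSet.mem_sep]
    refine and_congr_right fun hz => ?_
    refine ⟨fun h => ?_, fun h => hex1.sub h⟩
    obtain ⟨x, y, rfl⟩ := hp2'.1.2.2 z hz
    rw [fst_pair] at h ⊢
    exact hint (ZFSet.mem_inter.2 ⟨h, hp2'.2.1 (mem_dm.2 ⟨y, hz⟩)⟩)
  obtain ⟨-, -, -, -, hSAe⟩ := hSA D hD ρ G hst
  obtain ⟨-, hGG1, -, htrans1, -, -, -, -⟩ := hSAe ρ1 G1 hex1
  obtain ⟨-, -, -, hext, -⟩ := hSA D hD ρ1 G1 hst1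
  obtain ⟨G2, hG2, hp2G2⟩ := hext (ρ1 ∪ ρ2) hH hC
    (fun i hi => ZFSet.mem_union.2 (Or.inl hi)) p2 hp2P (by
      rw [hrst]
      exact hGG1 hp2G)
  have h3 : D.Ex ρ G (ρ1 ∪ ρ2) G2 := htrans1 _ _ hG2
  obtain ⟨-, -, -, -, -, -, -, hmid⟩ := hSAe _ _ h3
  have h4 := hmid ρ2 (hNtr ρ2 hρ2H) hsub (fun i hi => ZFSet.mem_union.2 (Or.inr hi))
    (hBAt D.L ρ2 hρ2c).1
  exact ⟨G2, hG2, hp2G2, h4.1, h4.2⟩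

end SE
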