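import Pool.Agent.H38.SE.TarC

/-! # CA, first part: definability of the notions in the reflection argument -/

set_option linter.unusedVariables false

open Ordinal Order Set
open scoped ZFSet

namespace SE

open SF

namespace H88

/-- realisation, the type is given as one set -/
def RzT (L ρ q0 B T s Z p d : V) : Prop :=
  Rz L ρ q0 B (fst T) (fst (snd T)) (fst (snd (snd T))) (snd (snd (snd T))) s Z p d

/-- there is a realisation in `M` -/
def Real (M : V → Prop) (L ρ q0 B T s Z : V) : Prop :=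
  ∃ p, M p ∧ ∃ d, M d ∧ RzT L ρ q0 B T s Z p d

/-- there are realisations which are fresh for all countable sets -/
def Good (M : V → Prop) (L ρ q0 B T s : V) : Prop :=
  ∀ Z, M Z → (Ctbl M Z → Real M L ρ q0 B T s Z)

/-- the dense set of the type `T` -/
noncomputable def DT (M : V → Prop) (L ρ q0 B T : V) : V :=
  (Fs (ZFSet.prod om sq)).sep fun s => ZFSet.IsFunc (fst (snd T)) sq s ∧
    (¬ Good M L ρ q0 B T s ∨ ∀ s' ∈ Fs (ZFSet.prod om sq), (ZFSet.IsFunc (fst (snd T)) sq s' →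
      (∀ j ∈ fst (snd T), app s j ⊆ app s' j) → Good M L ρ q0 B T s'))

theorem dfb_rzT (hCR : T_CR) : Dfb ZFm (fun _ v => RzT (v 0) (v 1) (v 2) (v 3) (v 4) (v 5) (v 6)
    (v 7) (v 8)) := by
  have h := Dfb.comp hCR (args [fun _ v => v 0, fun _ v => v 1, fun _ v => v 2, fun _ v => v 3,
    fun _ v => fst (v 4), fun _ v => fst (snd (v 4)), fun _ v => fst (snd (snd (v 4))),
    fun _ v => snd (snd (snd (v 4))), fun _ v => v 5, fun _ v => v 6, fun _ v => v 7,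
    fun _ v => v 8]) (tm_args _ (by
      intro a ha
      simp only [List.mem_cons, List.not_mem_nil, or_false] at ha
      rcases ha with rfl | rfl | rfl | rfl | rfl | rfl | rfl | rfl | rfl | rfl | rfl | rfl
      · exact Tm.var 0
      · exact Tm.var 1
      · exact Tm.var 2
      · exact Tm.var 3
      · exact Tm.fst (Tm.var 4)
      · exact Tm.fst (Tm.snd (Tm.var 4))
      · exact Tm.fst (Tm.snd (Tm.snd (Tm.var 4)))
      · exact Tm.snd (Tm.snd (Tm.snd (Tm.var 4)))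
      · exact Tm.var 5
      · exact Tm.var 6
      · exact Tm.var 7
      · exact Tm.var 8))
  exact h.congr fun M k v hv => Iff.rfl

theorem dfb_real (hCR : T_CR) : Dfb ZFm (fun M v => Real M (v 0) (v 1) (v 2) (v 3) (v 4) (v 5)
    (v 6)) := by
  have h := (((dfb_rzT hCR).rn (fun i => match i with
    | 0 => 2 | 1 => 3 | 2 => 4 | 3 => 5 | 4 => 6 | 5 => 7 | 6 => 8 | 7 => 1 | 8 => 0
    | n => n)).ex).ex
  exact h.congr fun M k v hv => Iff.rfl

theorem dfb_good (hCR : T_CR) : Dfb ZFm (fun M v => Good M (v 0) (v 1) (v 2) (v 3) (v 4)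
    (v 5)) := by
  have h1 : Dfb ZFm (fun M v => Real M (v 1) (v 2) (v 3) (v 4) (v 5) (v 6) (v 0)) :=
    (((dfb_real hCR).rn (fun i => match i with
      | 0 => 1 | 1 => 2 | 2 => 3 | 3 => 4 | 4 => 5 | 5 => 6 | 6 => 0 | n => n))).congr
      fun M k v hv => Iff.rfl
  have h := ((Dfb.ctbl (Tm.var 0)).imp h1).all
  exact h.congr fun M k v hv => Iff.rfl

theorem tm_fps (hAB : T_AB) (hAF : T_AF) : Tm ZFm (fun _ _ => Fs (ZFSet.prod om sq)) := by
  have h := Tm.at1 (F := fun _ x => Fs x) hAB.2.1 (Tm.prod Tm.om hAF.2.2.1)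
  exact h.congr fun M k v hv => rfl

theorem dfb_sub (i j k : ℕ) : Dfb ZFm (fun _ v => ∀ l ∈ fst (snd (v k)),
    app (v i) l ⊆ app (v j) l) := by
  have h := Dfb.ball (R := fun _ v => app (v (i + 1)) (v 0) ⊆ app (v (j + 1)) (v 0)) ktr_zfm
    (Tm.fst (Tm.snd (Tm.var k)))
    (Dfb.subset (Tm.app (Tm.var (i + 1)) (Tm.var 0)) (Tm.app (Tm.var (j + 1)) (Tm.var 0)))
  exact h.congr fun M k v hv => Iff.rfl

theorem tm_DT (hAB : T_AB) (hAF : T_AF) (hCR : T_CR) :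
    Tm ZFm (fun M v => DT M (v 0) (v 1) (v 2) (v 3) (v 4)) := by
  have hg1 : Dfb ZFm (fun M v => Good M (v 1) (v 2) (v 3) (v 4) (v 5) (v 0)) :=
    (((dfb_good hCR).rn (fun i => match i with
      | 0 => 1 | 1 => 2 | 2 => 3 | 3 => 4 | 4 => 5 | 5 => 0 | n => n))).congr
      fun M k v hv => Iff.rfl
  have hg2 : Dfb ZFm (fun M v => Good M (v 2) (v 3) (v 4) (v 5) (v 6) (v 0)) :=
    (((dfb_good hCR).rn (fun i => match i with
      | 0 => 2 | 1 => 3 | 2 => 4 | 3 => 5 | 4 => 6 | 5 => 0 | n => n))).congr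
      fun M k v hv => Iff.rfl
  have h2 : Dfb ZFm (fun M v => ZFSet.IsFunc (fst (snd (v 6))) sq (v 0) →
      (∀ j ∈ fst (snd (v 6)), app (v 1) j ⊆ app (v 0) j) →
      Good M (v 2) (v 3) (v 4) (v 5) (v 6) (v 0)) :=
    (Dfb.isFunc (Tm.fst (Tm.snd (Tm.var 6))) hAF.2.2.1 (Tm.var 0)).imp
      ((dfb_sub 1 0 6).imp hg2)
  have h3 : Dfb ZFm (fun M v => ∀ s' ∈ Fs (ZFSet.prod om sq),
      (ZFSet.IsFunc (fst (snd (v 5))) sq s' →
      (∀ j ∈ fst (snd (v 5)), app (v 0) j ⊆ app s' j) →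
      Good M (v 1) (v 2) (v 3) (v 4) (v 5) s')) :=
    (Dfb.ball ktr_zfm (tm_fps hAB hAF) h2).congr fun M k v hv => Iff.rfl
  have h4 : Dfb ZFm (fun M v => ZFSet.IsFunc (fst (snd (v 5))) sq (v 0) ∧
      (¬ Good M (v 1) (v 2) (v 3) (v 4) (v 5) (v 0) ∨ ∀ s' ∈ Fs (ZFSet.prod om sq),
      (ZFSet.IsFunc (fst (snd (v 5))) sq s' →
      (∀ j ∈ fst (snd (v 5)), app (v 0) j ⊆ app s' j) →
      Good M (v 1) (v 2) (v 3) (v 4) (v 5) s'))) :=
    (Dfb.isFunc (Tm.fst (Tm.snd (Tm.var 5))) hAF.2.2.1 (Tm.var 0)).and (hg1.not.or h3)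
  exact (Tm.sep h4 (tm_fps hAB hAF)).congr fun M k v hv => rfl

/-- choice of a witness for bad types -/
def R1 (M : V → Prop) (v : ℕ → V) : Prop := Ctbl M (v 1) ∧
  (Real M (v 2) (v 3) (v 4) (v 5) (fst (v 0)) (snd (v 0)) (v 1) →
    Good M (v 2) (v 3) (v 4) (v 5) (fst (v 0)) (snd (v 0)))

theorem dfb_R1 (hCR : T_CR) : Dfb ZFm R1 := by
  have h1 := Dfb.comp (dfb_real hCR) (args [fun _ v => v 2, fun _ v => v 3, fun _ v => v 4,
    fun _ v => v 5, fun _ v => fst (v 0), fun _ v => snd (v 0), fun _ v => v 1]) (tm_args _ (by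
      intro a ha
      simp only [List.mem_cons, List.not_mem_nil, or_false] at ha
      rcases ha with rfl | rfl | rfl | rfl | rfl | rfl | rfl
      · exact Tm.var 2
      · exact Tm.var 3
      · exact Tm.var 4
      · exact Tm.var 5
      · exact Tm.fst (Tm.var 0)
      · exact Tm.snd (Tm.var 0)
      · exact Tm.var 1))
  have h2 := Dfb.comp (dfb_good hCR) (args [fun _ v => v 2, fun _ v => v 3, fun _ v => v 4,
    fun _ v => v 5, fun _ v => fst (v 0), fun _ v => snd (v 0)]) (tm_args _ (by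
      intro a ha
      simp only [List.mem_cons, List.not_mem_nil, or_false] at ha
      rcases ha with rfl | rfl | rfl | rfl | rfl | rfl
      · exact Tm.var 2
      · exact Tm.var 3
      · exact Tm.var 4
      · exact Tm.var 5
      · exact Tm.fst (Tm.var 0)
      · exact Tm.snd (Tm.var 0)))
  exact ((Dfb.ctbl (Tm.var 1)).and (h1.imp h2)).congr fun M k v hv => Iff.rfl

/-- choice of the countable set from the Luzin property -/
def R2 (M : V → Prop) (v : ℕ → V) : Prop := Ctbl M (v 1) ∧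
  ∀ d, M d → (ZFSet.IsFunc (fst (snd (v 0))) (v 2) d →
    (∀ i ∈ fst (snd (v 0)), ∀ j ∈ fst (snd (v 0)), (app d i = app d j → i = j)) →
    (∀ j ∈ fst (snd (v 0)), app d j ∉ v 1) →
    ∃ t ∈ DT M (v 2) (v 3) (v 4) (v 5) (v 0), ∀ j ∈ fst (snd (v 0)), app t j ⊆ app d j)

theorem dfb_R2 (hAB : T_AB) (hAF : T_AF) (hCR : T_CR) : Dfb ZFm R2 := by
  -- variables: d, T, Z, L, ρ, q0, B
  have h1 : Dfb ZFm (fun _ v => ZFSet.IsFunc (fst (snd (v 1))) (v 3) (v 0)) :=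
    Dfb.isFunc (Tm.fst (Tm.snd (Tm.var 1))) (Tm.var 3) (Tm.var 0)
  have h2a : Dfb ZFm (fun _ v => app (v 2) (v 1) = app (v 2) (v 0) → v 1 = v 0) :=
    (Dfb.eq (Tm.app (Tm.var 2) (Tm.var 1)) (Tm.app (Tm.var 2) (Tm.var 0))).imp
      (Dfb.eq (Tm.var 1) (Tm.var 0))
  have h2b : Dfb ZFm (fun _ v => ∀ j ∈ fst (snd (v 2)), (app (v 1) (v 0) = app (v 1) j →
      v 0 = j)) :=
    (Dfb.ball ktr_zfm (Tm.fst (Tm.snd (Tm.var 2))) h2a).congr fun M k v hv => Iff.rfl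
  have h2 : Dfb ZFm (fun _ v => ∀ i ∈ fst (snd (v 1)), ∀ j ∈ fst (snd (v 1)),
      (app (v 0) i = app (v 0) j → i = j)) :=
    (Dfb.ball ktr_zfm (Tm.fst (Tm.snd (Tm.var 1))) h2b).congr fun M k v hv => Iff.rfl
  have h3a : Dfb ZFm (fun _ v => app (v 1) (v 0) ∉ v 3) :=
    (Dfb.mem (Tm.app (Tm.var 1) (Tm.var 0)) (Tm.var 3)).not
  have h3 : Dfb ZFm (fun _ v => ∀ j ∈ fst (snd (v 1)), app (v 0) j ∉ v 2) :=
    (Dfb.ball ktr_zfm (Tm.fst (Tm.snd (Tm.var 1))) h3a).congr fun M k v hv => Iff.rfl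
  have hDT : Tm ZFm (fun M v => DT M (v 3) (v 4) (v 5) (v 6) (v 1)) :=
    (Tm.rn (tm_DT hAB hAF hCR) (fun i => match i with
      | 0 => 3 | 1 => 4 | 2 => 5 | 3 => 6 | 4 => 1 | n => n)).congr fun M k v hv => rfl
  have h4a : Dfb ZFm (fun _ v => ∀ l ∈ fst (snd (v 2)), app (v 0) l ⊆ app (v 1) l) :=
    dfb_sub 0 1 2
  have h4 : Dfb ZFm (fun M v => ∃ t ∈ DT M (v 3) (v 4) (v 5) (v 6) (v 1),
      ∀ j ∈ fst (snd (v 1)), app t j ⊆ app (v 0) j) :=
    (Dfb.bex ktr_zfm hDT h4a).congr fun M k v hv => Iff.rfl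
  have h5 := (h1.imp (h2.imp (h3.imp h4))).all
  exact ((Dfb.ctbl (Tm.var 1)).and h5).congr fun M k v hv => Iff.rfl

end H88

end SE
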