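import Pool.Agent.H88.SE.CA1

/-! # CA, second part: finite functions, the set of types, the countable closure -/

set_option linter.unusedVariables false

open Ordinal Order Set
open scoped ZFSet

namespace SE

open SF

namespace H88

theorem mem_nS {x : V} {k : ℕ} : x ∈ nS k ↔ ∃ j, j < k ∧ x = nS j := by
  induction k with
  | zero =>
    rw [nS_zero]
    constructor
    · intro h
      exact absurd h (ZFSet.notMem_empty _)
    · rintro ⟨j, hj, -⟩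
      omega
  | succ k ih =>
    rw [nS_succ, ZFSet.mem_insert_iff, ih]
    constructor
    · rintro (rfl | ⟨j, hj, rfl⟩)
      · exact ⟨k, by omega, rfl⟩
      · exact ⟨j, by omega, rfl⟩
    · rintro ⟨j, hj, rfl⟩
      rcases Nat.lt_succ_iff_lt_or_eq.1 hj with h | rfl
      · exact Or.inr ⟨j, h, rfl⟩
      · exact Or.inl rfl

theorem fin_nS (k : ℕ) : ((nS k : V) : Set V).Finite := by
  have h : ((nS k : V) : Set V) ⊆ (fun j : ℕ => nS j) '' (Set.Iio k) := by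
    intro x hx
    obtain ⟨j, hj, rfl⟩ := mem_nS.1 hx
    exact ⟨j, hj, rfl⟩
  exact (Set.Finite.image _ (Set.finite_Iio k)).subset h

theorem isFunc_fin {x y f : V} (h : ZFSet.IsFunc x y f) (hx : (x : Set V).Finite) :
    (f : Set V).Finite := by
  refine (hx.image (fun z => ZFSet.pair z (app f z))).subset ?_
  intro w hw
  obtain ⟨a, ha, b, hb, rfl⟩ := ZFSet.mem_prod.1 (h.1 hw)
  exact ⟨a, ha, by
    show ZFSet.pair a (app f a) = ZFSet.pair a b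
    rw [app_eq (svl_of_isFunc h) hw]⟩

theorem fin_resS {a : V} {F : V → V} (ha : (a : Set V).Finite) : (resS a F : Set V).Finite := by
  refine (ha.image (fun z => ZFSet.pair z (F z))).subset ?_
  intro w hw
  obtain ⟨x, hx, rfl⟩ := mem_resS.1 hw
  exact ⟨x, hx, rfl⟩

theorem fin_dm {f : V} (hf : (f : Set V).Finite) : (dm f : Set V).Finite := by
  refine (hf.image (fun z => fst z)).subset ?_
  intro x hx
  obtain ⟨y, hy⟩ := mem_dm.1 hx
  exact ⟨_, hy, fst_pair x y⟩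

theorem enum {E : V} (hE : (E : Set V).Finite) : ∃ (k : ℕ) (d : V), ZFSet.IsFunc (nS k) E d ∧
    (∀ i ∈ nS k, ∀ j ∈ nS k, app d i = app d j → i = j) ∧ ∀ x ∈ E, ∃ j ∈ nS k, app d j = x := by
  classical
  set S := hE.toFinset with hS
  let e := S.equivFin
  have hi : ∀ j : ℕ, ∀ h : ∃ i : ℕ, nS j = nS i, h.choose = j := by
    intro j h
    exact (nS_inj.1 h.choose_spec).symm
  let idx : V → ℕ := fun x => if h : ∃ i : ℕ, x = nS i then h.choose else 0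
  have hidx : ∀ j : ℕ, idx (nS j) = j := by
    intro j
    have h : ∃ i : ℕ, nS j = nS i := ⟨j, rfl⟩
    show (if h : ∃ i : ℕ, nS j = nS i then h.choose else 0) = j
    rw [dif_pos h]
    exact hi j h
  let F : V → V := fun x => if h : idx x < S.card then (e.symm ⟨idx x, h⟩).1 else ∅
  have hF : ∀ j : ℕ, ∀ h : j < S.card, F (nS j) = (e.symm ⟨j, h⟩).1 := by
    intro j h
    have h1 : idx (nS j) < S.card := by rw [hidx]; exact h
    show (if h : idx (nS j) < S.card then (e.symm ⟨idx (nS j), h⟩).1 else ∅) = _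
    rw [dif_pos h1]
    congr 3
    exact hidx j
  refine ⟨S.card, resS (nS S.card) F, ?_, ?_, ?_⟩
  · refine isFunc_resS _ _ _ fun x hx => ?_
    obtain ⟨j, hj, rfl⟩ := mem_nS.1 hx
    rw [hF j hj]
    exact hE.mem_toFinset.1 (e.symm ⟨j, hj⟩).2
  · intro x hx y hy hxy
    rw [app_resS hx, app_resS hy] at hxy
    obtain ⟨i, hi, rfl⟩ := mem_nS.1 hx
    obtain ⟨j, hj, rfl⟩ := mem_nS.1 hy
    rw [hF i hi, hF j hj] at hxy
    have h2 := e.symm.injective (Subtype.ext hxy)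
    have h3 : i = j := congrArg Fin.val h2
    rw [h3]
  · intro x hx
    have hx' : x ∈ S := hE.mem_toFinset.2 hx
    have hj := (e ⟨x, hx'⟩).2
    have hm : nS (e ⟨x, hx'⟩).1 ∈ nS S.card := mem_nS.2 ⟨_, hj, rfl⟩
    refine ⟨nS (e ⟨x, hx'⟩).1, hm, ?_⟩
    rw [app_resS hm, hF _ hj]
    show (e.symm (e ⟨x, hx'⟩)).1 = x
    rw [Equiv.symm_apply_apply]

theorem ctbl_om {M : V → Prop} (k : ZFm M) : Ctbl M om := by
  refine Or.inr ⟨resS om fun x => x, ?_, isFunc_resS _ _ _ fun x hx => hx, ?_⟩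
  · have h := (Tm.resS (f := fun _ _ => om) (g := fun _ v => v 0) Tm.om (Tm.var 0)).1 M k
      (fun _ => ∅) (fun _ => k.mempty)
    exact h
  · intro b hb
    exact ⟨b, hb, pair_mem_resS.2 ⟨hb, rfl⟩⟩

/-- the support of a type -/
noncomputable def gg (τ : V) : V := dm τ ∪ (⋃₀ (imS (dm τ) fun i => fst (snd (app τ i))) : ZFSet)

theorem mem_gg {τ x : V} : x ∈ gg τ ↔ x ∈ dm τ ∨ ∃ i ∈ dm τ, x ∈ fst (snd (app τ i)) := by
  unfold gg
  rw [ZFSet.mem_union, ZFSet.mem_sUnion]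
  refine or_congr Iff.rfl ?_
  constructor
  · rintro ⟨y, hy, hx⟩
    obtain ⟨i, hi, rfl⟩ := mem_imS.1 hy
    exact ⟨i, hi, hx⟩
  · rintro ⟨i, hi, hx⟩
    exact ⟨_, mem_imS.2 ⟨i, hi, rfl⟩, hx⟩

theorem tm_gg : Tm ZFm (fun _ v => gg (v 0)) := by
  have h1 := Tm.iUn (f := fun _ v => dm (v 0)) (g := fun _ v => fst (snd (app (v 1) (v 0))))
    (Tm.dm (Tm.var 0)) (Tm.fst (Tm.snd (Tm.app (Tm.var 1) (Tm.var 0))))
  exact (Tm.union (Tm.dm (Tm.var 0)) h1).congr fun M k v hv => rfl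

/-- the set of the conditions of a type with supports in `e`, `e'` -/
noncomputable def TY (e e' : V) : V :=
  Fs (ZFSet.prod e (ZFSet.prod sq (ZFSet.prod (Fs e') (Fs om))))

theorem tm_TY (hAB : T_AB) (hAF : T_AF) : Tm ZFm (fun _ v => TY (v 0) (v 1)) := by
  have hF : ∀ f : (V → Prop) → (ℕ → V) → V, Tm ZFm f → Tm ZFm (fun M v => Fs (f M v)) :=
    fun f hf => Tm.at1 (F := fun _ x => Fs x) hAB.2.1 hf
  exact (hF _ (Tm.prod (Tm.var 0) (Tm.prod hAF.2.2.1 (Tm.prod (hF _ (Tm.var 1))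
    (hF _ Tm.om))))).congr fun M k v hv => rfl

/-- the set of the types -/
noncomputable def UU (L ρ : V) : V :=
  (ZFSet.prod (TY ρ L) (ZFSet.prod om (ZFSet.prod om om))).sep fun T => Svl (fst T)

theorem tm_UU (hAB : T_AB) (hAF : T_AF) : Tm ZFm (fun _ v => UU (v 0) (v 1)) := by
  have h1 : Tm ZFm (fun _ v => TY (v 1) (v 0)) :=
    (Tm.at2 (F := fun _ x y => TY x y) (tm_TY hAB hAF) (Tm.var 1) (Tm.var 0)).congr
      fun M k v hv => rfl
  have h2 := Tm.sep (R := fun _ v => Svl (fst (v 0))) (Dfb.svl (Tm.fst (Tm.var 0)))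
    (Tm.prod h1 (Tm.prod Tm.om (Tm.prod Tm.om Tm.om)))
  exact h2.congr fun M k v hv => rfl

/-- elements of the set of types -/
theorem of_mem_UU (hAB : T_AB) {L ρ T : V} (hT : T ∈ UU L ρ) :
    T = ZFSet.pair (fst T) (ZFSet.pair (fst (snd T)) (snd (snd T))) ∧ Svl (fst T) ∧
    (fst T : Set V).Finite ∧ dm (fst T) ⊆ ρ ∧ (∃ k : ℕ, fst (snd T) = nS k) ∧
    snd (snd T) ∈ ZFSet.prod om om ∧
    (∀ z ∈ fst T, ∃ i ∈ dm (fst T), z = ZFSet.pair i (app (fst T) i)) ∧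
    ∀ i ∈ dm (fst T), app (fst T) i = ZFSet.pair (fst (app (fst T) i))
      (ZFSet.pair (fst (snd (app (fst T) i))) (snd (snd (app (fst T) i)))) ∧
      fst (app (fst T) i) ∈ sq ∧ fst (snd (app (fst T) i)) ∈ Fs L ∧
      snd (snd (app (fst T) i)) ∈ Fs om := by
  unfold UU at hT
  rw [ZFSet.mem_sep] at hT
  obtain ⟨hT, hsv⟩ := hT
  obtain ⟨τ, hτ, c, hc, rfl⟩ := ZFSet.mem_prod.1 hT
  obtain ⟨K, hK, c2, hc2, rfl⟩ := ZFSet.mem_prod.1 hc
  simp only [fst_pair, snd_pair] at hsv ⊢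
  have hτ2 := (hAB.1 _ _).1 hτ
  refine ⟨trivial, hsv, hτ2.2, ?_, mem_om.1 hK, hc2, ?_, ?_⟩
  · intro i hi
    obtain ⟨y, hy⟩ := mem_dm.1 hi
    exact (ZFSet.pair_mem_prod.1 (hτ2.1 hy)).1
  · intro z hz
    obtain ⟨a, ha, b, hb, rfl⟩ := ZFSet.mem_prod.1 (hτ2.1 hz)
    exact ⟨a, mem_dm.2 ⟨b, hz⟩, by rw [app_eq hsv hz]⟩
  · intro i hi
    obtain ⟨y, hy⟩ := mem_dm.1 hi
    have h1 := (ZFSet.pair_mem_prod.1 (hτ2.1 hy)).2
    rw [app_eq hsv hy]
    obtain ⟨a, ha, b, hb, rfl⟩ := ZFSet.mem_prod.1 h1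
    obtain ⟨a2, ha2, b2, hb2, rfl⟩ := ZFSet.mem_prod.1 hb
    simp only [fst_pair, snd_pair]
    exact ⟨trivial, ha, ha2, hb2⟩

/-- the countable closure -/
theorem closure (hAB : T_AB) (hAC : T_AC) (hAF : T_AF) (hCG : T_CG) {M : V → Prop} (k : ZFCm M)
    {L ρ f1 f2 : V} (hL : M L) (hρ : M ρ) (hf1 : M f1) (hf2 : M f2)
    (h1 : ∀ x ∈ ZFSet.prod (UU L ρ) (Fs (ZFSet.prod om sq)), Ctbl M (app f1 x))
    (h2 : ∀ x ∈ UU L ρ, Ctbl M (app f2 x)) :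
    ∃ Y, Ctbl M Y ∧ Y ⊆ ρ ∪ L ∧ ∀ T ∈ UU L ρ, ∀ s ∈ Fs (ZFSet.prod om sq), gg (fst T) ⊆ Y →
      (∀ x ∈ app f1 (ZFSet.pair T s), x ∈ ρ ∪ L → x ∈ Y) ∧
      ∀ x ∈ app f2 T, x ∈ ρ ∪ L → x ∈ Y := by
  have k1 := k.toZFm
  obtain ⟨hc1, hc2, hc3, hc4, hc5, hc6⟩ := hAC M k1
  have hpv : In M (cons L (cons ρ (cons f1 (cons f2 (fun _ => ∅))))) :=
    (((In.cons (fun _ => k1.mempty) hf2).cons hf1).cons hρ).cons hL
  obtain ⟨U2, hU2⟩ : ∃ U2, U2 = ZFSet.prod (UU L ρ) (Fs (ZFSet.prod om sq)) := ⟨_, rfl⟩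
  rw [← hU2] at h1
  have tU2 : Tm ZFm (fun _ v => ZFSet.prod (UU (v 0) (v 1)) (Fs (ZFSet.prod om sq))) :=
    Tm.prod (tm_UU hAB hAF) (tm_fps hAB hAF)
  have mU2 : M U2 := by
    rw [hU2]
    have h := tU2.1 M k1 _ hpv
    exact h
  have tg : Tm ZFm (fun M v => resS (ZFSet.prod (UU (v 0) (v 1)) (Fs (ZFSet.prod om sq)))
      fun x => gg (fst (fst x))) :=
    (Tm.resS (g := fun _ v => gg (fst (fst (v 0)))) tU2
      (Tm.at1 (F := fun _ x => gg x) tm_gg (Tm.fst (Tm.fst (Tm.var 0))))).congr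
      fun M k v hv => rfl
  have th : Tm ZFm (fun M v => resS (ZFSet.prod (UU (v 0) (v 1)) (Fs (ZFSet.prod om sq)))
      fun x => app (v 2) x ∪ app (v 3) (fst x)) :=
    (Tm.resS (g := fun _ v => app (v 3) (v 0) ∪ app (v 4) (fst (v 0))) tU2
      (Tm.union (Tm.app (Tm.var 3) (Tm.var 0)) (Tm.app (Tm.var 4) (Tm.fst (Tm.var 0))))).congr
      fun M k v hv => rfl
  have mg : M (resS U2 fun x => gg (fst (fst x))) := by
    rw [hU2]
    have h := tg.1 M k1 _ hpv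
    exact h
  have mh : M (resS U2 fun x => app f1 x ∪ app f2 (fst x)) := by
    rw [hU2]
    have h := th.1 M k1 _ hpv
    exact h
  have mX : M (ρ ∪ L) := by
    have h := (Tm.union (f := fun _ v => v 1) (g := fun _ v => v 0) (Tm.var 1)
      (Tm.var 0)).1 M k1 _ hpv
    exact h
  have hU2m : ∀ x ∈ U2, ∃ T ∈ UU L ρ, ∃ s ∈ Fs (ZFSet.prod om sq), x = ZFSet.pair T s := by
    intro x hx
    rw [hU2] at hx
    exact ZFSet.mem_prod.1 hx
  have hA1 : ∀ T ∈ U2, app (resS U2 fun x => gg (fst (fst x))) T ∈ Fs (ρ ∪ L) := by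
    intro x hx
    obtain ⟨T, hT, s, hs, rfl⟩ := hU2m x hx
    rw [app_resS hx, fst_pair]
    obtain ⟨-, hsv, hfin, hdm, -, -, -, hco⟩ := of_mem_UU hAB hT
    rw [hAB.1]
    constructor
    · intro y hy
      rcases mem_gg.1 hy with h | ⟨i, hi, h⟩
      · exact ZFSet.mem_union.2 (Or.inl (hdm h))
      · exact ZFSet.mem_union.2 (Or.inr (((hAB.1 _ _).1 (hco i hi).2.2.1).1 h))
    · have h3 : (gg (fst T) : Set V) ⊆ (dm (fst T) : Set V) ∪
          ⋃ i ∈ (dm (fst T) : Set V), (fst (snd (app (fst T) i)) : Set V) := by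
        intro y hy
        rcases mem_gg.1 hy with h | ⟨i, hi, h⟩
        · exact Or.inl h
        · refine Or.inr ?_
          rw [Set.mem_iUnion₂]
          exact ⟨i, hi, h⟩
      refine Set.Finite.subset ?_ h3
      refine (fin_dm hfin).union ?_
      refine Set.Finite.biUnion (fin_dm hfin) fun i hi => ?_
      exact ((hAB.1 _ _).1 (hco i hi).2.2.1).2
  have hA2 : ∀ T ∈ U2, Ctbl M (app (resS U2 fun x => app f1 x ∪ app f2 (fst x)) T) := by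
    intro x hx
    rw [app_resS hx]
    obtain ⟨T, hT, s, hs, rfl⟩ := hU2m x hx
    rw [fst_pair]
    exact hc4 _ _ (h1 _ hx) (h2 _ hT)
  have hA3 : ∀ e ∈ Fs (ρ ∪ L), Ctbl M (U2.sep fun T =>
      app (resS U2 fun x => gg (fst (fst x))) T ⊆ e) := by
    intro e he
    have he2 := (hAB.1 _ _).1 he
    have hMe := hAB.2.2 M k1 (ρ ∪ L) e mX he2.1 he2.2
    -- the set is in `M`
    have tS : Tm ZFm (fun M v => (v 0).sep fun x => app (v 1) x ⊆ v 2) :=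
      (Tm.sep (R := fun _ v => app (v 2) (v 0) ⊆ v 3) (f := fun _ v => v 0)
        (Dfb.subset (Tm.app (Tm.var 2) (Tm.var 0)) (Tm.var 3)) (Tm.var 0)).congr
        fun M k v hv => rfl
    have hqv : In M (cons U2 (cons (resS U2 fun x => gg (fst (fst x))) (cons e (fun _ => ∅)))) :=
      (((In.cons (fun _ => k1.mempty) hMe.1).cons mg).cons mU2)
    have mS : M (U2.sep fun x => app (resS U2 fun x => gg (fst (fst x))) x ⊆ e) := by
      have h := tS.1 M k1 _ hqv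
      exact h
    have cTY : Ctbl M (TY e e) := hc5 _ (hc3 _ _ hMe.2 (hc3 _ _ (hAF.2.2.2.1 M k1)
      (hc3 _ _ (hc5 _ hMe.2) (hc5 _ (ctbl_om k1)))))
    have cW : Ctbl M (ZFSet.prod (ZFSet.prod (TY e e) (ZFSet.prod om (ZFSet.prod om om)))
        (Fs (ZFSet.prod om sq))) :=
      hc3 _ _ (hc3 _ _ cTY (hc3 _ _ (ctbl_om k1) (hc3 _ _ (ctbl_om k1) (ctbl_om k1))))
        (hc5 _ (hc3 _ _ (ctbl_om k1) (hAF.2.2.2.1 M k1)))
    refine hc2 _ _ mS cW ?_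
    intro x hx
    rw [ZFSet.mem_sep] at hx
    obtain ⟨hx, hxe⟩ := hx
    rw [app_resS hx] at hxe
    obtain ⟨T, hT, s, hs, rfl⟩ := hU2m x hx
    rw [fst_pair] at hxe
    refine ZFSet.mem_prod.2 ⟨T, ?_, s, hs, rfl⟩
    obtain ⟨hTe, hsv, hfin, hdm, ⟨n, hn⟩, hc, hz, hco⟩ := of_mem_UU hAB hT
    rw [hTe]
    refine ZFSet.mem_prod.2 ⟨fst T, ?_, _, ZFSet.mem_prod.2 ⟨_, ?_, _, hc, rfl⟩, rfl⟩
    · unfold TY
      rw [hAB.1]
      refine ⟨?_, hfin⟩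
      intro z hz2
      obtain ⟨i, hi, rfl⟩ := hz z hz2
      refine ZFSet.pair_mem_prod.2 ⟨hxe (mem_gg.2 (Or.inl hi)), ?_⟩
      rw [(hco i hi).1]
      refine ZFSet.pair_mem_prod.2 ⟨(hco i hi).2.1, ZFSet.pair_mem_prod.2
        ⟨?_, (hco i hi).2.2.2⟩⟩
      rw [hAB.1]
      exact ⟨fun y hy => hxe (mem_gg.2 (Or.inr ⟨i, hi, hy⟩)),
        ((hAB.1 _ _).1 (hco i hi).2.2.1).2⟩
    · rw [hn]
      exact mem_om.2 ⟨n, rfl⟩
  obtain ⟨Y, hY1, hY2, hY3⟩ := hCG M k (ρ ∪ L) U2 (resS U2 fun x => gg (fst (fst x)))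
    (resS U2 fun x => app f1 x ∪ app f2 (fst x)) mX mU2 mg mh hA1 hA2 hA3
  · refine ⟨Y, hY1, hY2, ?_⟩
    intro T hT s hs hg
    have hx : ZFSet.pair T s ∈ U2 := by
      rw [hU2]
      exact ZFSet.mem_prod.2 ⟨T, hT, s, hs, rfl⟩
    have h3 := hY3 _ hx (by
      rw [app_resS hx, fst_pair]
      exact hg)
    rw [app_resS hx, fst_pair] at h3
    refine ⟨fun x hx1 hx2 => h3 (ZFSet.mem_inter.2 ⟨ZFSet.mem_union.2 (Or.inl hx1), hx2⟩),
      fun x hx1 hx2 => h3 (ZFSet.mem_inter.2 ⟨ZFSet.mem_union.2 (Or.inr hx1), hx2⟩)⟩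

end H88

end SE
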